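import Pool.Agent.FS.FewPrimes.Core

namespace Pool.Agent.Results.MP_44626f_nt.FewPrimes

/-- An edge `2 ^ k * m` (`m` odd) of an `n`-dimensional Euler brick bounds `n` through `k`, the
number of primes of `m` and their exponents. -/
theorem result (n : ℕ) (x : Fin n → ℕ) (hx : ∀ i, 0 < x i)
    (hs : ∀ i j, i ≠ j → IsSquare (x i ^ 2 + x j ^ 2)) (i : Fin n) (k m : ℕ) (hm : Odd m)
    (hi : x i = 2 ^ k * m) :
    n ≤ 1 + k / 2 + m.primeFactors.card * (1 + Nat.log 4
      (m.primeFactors.card.factorial * ∏ p ∈ m.primeFactors, m.factorization p)) :=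
  Pool.Agent.FS.FewPrimes.main n x hx hs i k m hm hi

end Pool.Agent.Results.MP_44626f_nt.FewPrimes
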