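import Pool.Agent.Lib.MP_44626f_nt.FF.Near
import Pool.Agent.Lib.MP_44626f_nt.FF.GlobK

open scoped IntermediateField

namespace Pool.Agent.Results.MP_44626f_nt.FunctionField

open Pool.Agent.Lib.MP_44626f_nt.FF

/-- Differentials of `K / k` that are regular at every valuation ring of `K` containing `k`. -/
noncomputable def regular (k K : Type) [Field k] [Field K] [Algebra k K] : Submodule k Ω[K⁄k] :=
  ⨅ (O : Subalgebra k K) (_ : ∀ f : K, f ∈ O ∨ f⁻¹ ∈ O),
    Submodule.span k {ω | ∃ f ∈ O, ∃ h ∈ O, ω = f • KaehlerDifferential.D k K h}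

/-- The genus: the dimension of the space of everywhere regular differentials. -/
noncomputable def genus (k K : Type) [Field k] [Field K] [Algebra k K] : ℕ :=
  Module.finrank k (regular k K)

/-- In large dimension, an Euler brick over a function field of genus `g` with nonzero edges and
distinct fourth powers of the edges has ratios of edges that are constant or, only if `g ≥ 2`,
of degree at most `C (g - 1)`. -/
theorem result : ∃ n0 C : ℕ, ∀ (k K : Type) [Field k] [CharZero k] [IsAlgClosed k] [Field K]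
    [Algebra k K] (t : K), Transcendental k t → FiniteDimensional k⟮t⟯ K →
    ∀ n : ℕ, n0 ≤ n → ∀ x : Fin n → K, (∀ i, x i ≠ 0) → (∀ i j, i ≠ j → x i ^ 4 ≠ x j ^ 4) →
      (∀ i j, i ≠ j → IsSquare (x i ^ 2 + x j ^ 2)) →
      ∀ i j, (∃ c : k, x j = c • x i) ∨ (2 ≤ genus k K ∧ FiniteDimensional k⟮x j / x i⟯ K ∧
        Module.finrank k⟮x j / x i⟯ K ≤ C * (genus k K - 1)) := by
  obtain ⟨n0, C, h⟩ := near
  refine ⟨n0, C, fun k K _ _ _ _ _ t ht _ n hn x h1 h2 h3 i j => ?_⟩
  obtain ⟨g, hg⟩ : ∃ g, g = genus k K := ⟨_, rfl⟩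
  rw [← hg]
  have : CharZero K := charZero_of_injective_algebraMap (algebraMap k K).injective
  obtain ⟨G, g1, g2⟩ := exists_glob k K ht
  by_cases ha : IsAlgebraic k (x j / x i)
  · obtain ⟨c, hc⟩ := minpoly.mem_range_of_degree_eq_one k _
      (IsAlgClosed.degree_eq_one_of_irreducible k (minpoly.irreducible ha.isIntegral))
    exact Or.inl ⟨c, by rw [Algebra.smul_def, hc, div_mul_cancel₀ _ (h1 i)]⟩
  obtain ⟨g3, g4⟩ := g2 _ _ (h1 j) (h1 i) ha
  have h4 := h K G (Fin n) x ⟨h1, fun i j e => by_contra fun hne => h2 i j hne e, h3⟩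
    (by simpa using hn) j i
  have g5 : G.gam = 2 * (g : ℝ) - 2 := by rw [hg]; exact g1
  have g6 : (1 : ℝ) ≤ Module.finrank k⟮x j / x i⟯ K := by exact_mod_cast g3
  have g7 : 2 ≤ g := by
    by_contra hlt
    have : (g : ℝ) ≤ 1 := by exact_mod_cast (by omega : g ≤ 1)
    rw [max_eq_right (by linarith)] at h4
    linarith
  have g8 : (2 : ℝ) ≤ g := by exact_mod_cast g7
  refine Or.inr ⟨g7, Module.finite_of_finrank_pos g3, ?_⟩
  rw [max_eq_left (by linarith), g4, g5] at h4
  have g9 : (Module.finrank k⟮x j / x i⟯ K : ℝ) ≤ C * ((g - 1 : ℕ) : ℝ) := by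
    rw [Nat.cast_sub (by omega)]
    push_cast
    linarith
  exact_mod_cast g9

end Pool.Agent.Results.MP_44626f_nt.FunctionField
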