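import Pool.Agent.FS.LargeEdge.Core

namespace Pool.Agent.Results.MP_44626f_nt.LargeEdge

/-- An `n`-dimensional Euler brick has an edge of size at least `exp (c n ^ 2)`. -/
theorem result : ∃ c : ℝ, 0 < c ∧ ∀ n : ℕ, 2 ≤ n → ∀ x : Fin n → ℕ, (∀ i, 0 < x i) →
    (∀ i j, i ≠ j → IsSquare (x i ^ 2 + x j ^ 2)) → ∃ i, Real.exp (c * n ^ 2) ≤ x i :=
  Pool.Agent.FS.LargeEdge.main

end Pool.Agent.Results.MP_44626f_nt.LargeEdge
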