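import Pool.Agent.Lib.MP_44626f_nt.Brick

namespace Pool.Agent.Results.MP_44626f_nt.Sparse

/-- Primitive `n`-dimensional Euler bricks (`n ≥ 3`) with all edges at most `X` number
`O(X^(3/4+ε))`. -/
theorem result (n : ℕ) (hn : 3 ≤ n) (ε : ℝ) (hε : 0 < ε) :
    ∃ C : ℝ, ∀ X : ℕ, 1 ≤ X →
      (Set.ncard {x : Fin n → ℕ | (∀ i, 0 < x i ∧ x i ≤ X) ∧ Finset.univ.gcd x = 1 ∧
        ∀ i j, i ≠ j → IsSquare (x i ^ 2 + x j ^ 2)} : ℝ) ≤ C * (X : ℝ) ^ (3 / 4 + ε) := by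
  obtain ⟨C, hC⟩ := Pool.Agent.Lib.MP_44626f_nt.count_main (ι := Fin n) (i₀ := ⟨0, by omega⟩)
    (i₁ := ⟨1, by omega⟩) (i₂ := ⟨2, by omega⟩) (by simp) (by simp) (by simp) hε
  refine ⟨C, fun X hX => ?_⟩
  have hfin : Set.Finite {x : Fin n → ℕ | (∀ i, 0 < x i ∧ x i ≤ X) ∧ Finset.univ.gcd x = 1 ∧
      ∀ i j, i ≠ j → IsSquare (x i ^ 2 + x j ^ 2)} :=
    (Set.Finite.pi' fun _ : Fin n => Set.finite_Iic X).subset fun x hx i => (hx.1 i).2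
  rw [Set.ncard_eq_toFinset_card _ hfin]
  exact hC X hX _ fun x hx => hfin.mem_toFinset.1 hx

end Pool.Agent.Results.MP_44626f_nt.Sparse
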